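import Pool.Agent.Q62.CS.Stm

/-! Project CS: assembly. -/

open Filter Topology MeasureTheory Finset

namespace Pool.Agent.Q62.CS

theorem val_inj : Function.Injective val := by
  intro a b h
  revert a b
  decide

theorem val_two : ∀ a, 2 ≤ val a := by decide

theorem val_le : ∀ a, val a ≤ 16 := by decide

theorem entCond (h : ℝ) (mu : ∀ n, (Fin n → ZMod 2) → ℝ)
    (hh : Tendsto (fun k => Real.log (C k).card / (2 * len k)) atTop (𝓝 h))
    (ub : ∀ n k : ℕ, ent (mu n) ≤ Real.log (2 * len k) +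
      ((n : ℝ) / (2 * len k) + 2) * Real.log (C k).card)
    (m1 : mu 1 (fun _ => 1) = 1 / 2) (m0 : mu 1 (fun _ => 0) = 1 / 2)
    (lb : ∀ n : ℕ, n * (h + 5 / 2 * Real.log 2) ≤
      ent (fun D : Fin n → Fin 16 => ∑ V, mu n V * uu val V D)) :
    EntCond 16 val mu := by
  intro l δ hl hδ
  have hc : ∑ a, mu 1 (fun _ => a) * Real.log (val a) = 5 / 2 * Real.log 2 := by
    have : (univ : Finset (ZMod 2)) = {0, 1} := by decide
    rw [this, Finset.sum_insert (by decide), Finset.sum_singleton, m0, m1]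
    have h0 : val 0 = 2 := by decide
    have h1 : val 1 = 16 := by decide
    rw [h0, h1]
    have : Real.log ((16 : ℕ) : ℝ) = 4 * Real.log 2 := by
      rw [show ((16 : ℕ) : ℝ) = (2 : ℝ) ^ 4 by norm_num, Real.log_pow]; norm_num
    rw [this]
    push_cast
    ring
  have hlR : (0 : ℝ) < l := by exact_mod_cast hl
  have hev : ∀ᶠ k in atTop, Real.log (C k).card / (2 * len k) < h + δ / (2 * l) :=
    hh.eventually_lt_const (by linarith [div_pos hδ (by positivity : (0 : ℝ) < 2 * l)])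
  obtain ⟨k, hk⟩ := hev.exists
  set K : ℝ := Real.log (2 * len k) + 2 * Real.log (C k).card with hK
  obtain ⟨m, hm⟩ := exists_nat_ge (max 1 (2 * K / δ))
  have hm1 : (1 : ℝ) ≤ m := le_trans (le_max_left _ _) hm
  have hm2 : 2 * K / δ ≤ m := le_trans (le_max_right _ _) hm
  refine ⟨m, by exact_mod_cast hm1, ?_⟩
  rw [hc]
  have hu := ub (m * l) k
  have hlow := lb (m * l)
  have hK2 : K ≤ δ * m / 2 := by
    rw [div_le_iff₀ hδ] at hm2
    linarith
  have hml : (0 : ℝ) < m * l := by positivity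
  have h3 : ((m * l : ℕ) : ℝ) / (2 * len k) * Real.log (C k).card ≤ m * l * h + m * δ / 2 := by
    have e1 : ((m * l : ℕ) : ℝ) / (2 * len k) * Real.log (C k).card =
        (m * l) * (Real.log (C k).card / (2 * len k)) := by
      push_cast
      ring
    rw [e1]
    have := mul_le_mul_of_nonneg_left hk.le hml.le
    have e2 : (m : ℝ) * l * (h + δ / (2 * l)) = m * l * h + m * δ / 2 := by
      field_simp
    linarith
  push_cast at hlow hu h3 ⊢
  nlinarith [hu, hlow, h3, hK2]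

theorem main (b2 : S_B2) (c1 : S_C1) (c2 : S_C2) (c3 : S_C3) (d1 : S_D1) (e3 : S_E3) (f3 : S_F3)
    (g1 : S_G1) (g2 : S_G2) (g3 : S_G3) (h2 : S_H2) :
    ∃ Q : ℕ → ℕ, NonDet Q ∧ Normal Q ⊆ UNormal Q ∧ Normal Q ⊆ DNormal Q := by
  obtain ⟨w, hw, heq⟩ := f3
  obtain ⟨mu, hmu⟩ := g1 w hw heq
  obtain ⟨h, hpos, hh⟩ := d1.2
  have lim0 : ∀ n (V : Fin n → ZMod 2), Tendsto (frq (man w) V) atTop (𝓝 (mu n V)) := by
    intro n V
    simpa using (hmu n V).1 0
  have pos := g2 w hw heq mu lim0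
  obtain ⟨ub, m1, m0⟩ := g3 w hw mu lim0
  have lb := e3 h mu hh (fun n V => (hmu n V).2)
  have hec : EntCond 16 val mu := entCond h mu hh ub m1 m0 (fun n => (lb n).2)
  have gen : Gen 16 val (fun j => man w (j + 1)) mu :=
    { inj := val_inj
      two := val_two
      leB := val_le
      lim := fun n V => (hmu n V).1 1
      pos := fun n V ⟨j, hj⟩ => pos n V ⟨j + 1, fun i => by
        have := hj i
        rw [show j + 1 + (i : ℕ) = j + i + 1 by ring]
        exact this⟩ }
  refine ⟨fun i => val (man w (i + 1)), ?_, ?_, ?_⟩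
  · exact h2 val (man w) mu h val_inj val_two lim0 pos hpos
      (fun n => by rw [mul_comm]; exact (lb n).1)
  · intro x hx
    obtain ⟨ds, hd1, hd2, hd3⟩ := c1 16 val _ mu gen x hx
    exact c2 16 val _ mu gen x hx.1 hx.2.1 ds hd1
      (b2 16 val (fun a => ⟨le_trans one_le_two (val_two a), val_le a⟩) _ ds mu gen.lim hd2 hd3 hec)
  · intro x hx
    obtain ⟨ds, hd1, hd2, hd3⟩ := c1 16 val _ mu gen x hx
    exact c3 16 val _ mu gen x hx.1 hx.2.1 ds hd1
      (b2 16 val (fun a => ⟨le_trans one_le_two (val_two a), val_le a⟩) _ ds mu gen.lim hd2 hd3 hec)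

end Pool.Agent.Q62.CS
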