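import Mathlib

/-!
Project CS (MP_2a076f_an, MP_2f0ae6_an): a non-deterministic dynamically generated basic sequence
`Q` with `N(Q) ⊆ UN(Q)` and `N(Q) ⊆ DN(Q)`. Definitions and statements of the lemmas.
Idea: `q` takes the two values `2, 16`; a bit is written as the pair `(2, 16)` or `(16, 2)`, the bits
satisfy the parity checks of an infinite product code (Elias). A uniform random digit `< 16` reveals
the bit with probability `7/8`, the code corrects the erasures, so random digits determine `q` up to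
entropy `o(n)`; by an entropy count every joining of `q` with the averaged digit process is the
canonical one.
-/

open Filter Topology MeasureTheory Finset

namespace Pool.Agent.Q62.CS

/-! ### A. Finite entropy -/

/-- Shannon entropy -/
noncomputable def ent {ι : Type} [Fintype ι] (p : ι → ℝ) : ℝ := ∑ i, Real.negMulLog (p i)

/-- probability vector -/
def Pmf {ι : Type} [Fintype ι] (p : ι → ℝ) : Prop := (∀ i, 0 ≤ p i) ∧ ∑ i, p i = 1

open scoped Classical in
/-- image of a weight -/
noncomputable def push {ι κ : Type} [Fintype ι] (f : ι → κ) (p : ι → ℝ) (k : κ) : ℝ :=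
  ∑ i, if f i = k then p i else 0

open scoped Classical in
/-- law of `f` for the uniform distribution on `J` -/
noncomputable def law {ι κ : Type} (J : Finset ι) (f : ι → κ) (k : κ) : ℝ :=
  ((J.filter (fun j => f j = k)).card : ℝ) / J.card

/-- **A1 (Gibbs).** `p log (q / p) ≤ q - p` for `p > 0`, with equality only for `p = q`; sum over
`p i > 0`: `ent p - ∑ p (-log q) = ∑ p log (q / p) ≤ ∑_{p i > 0} q i - 1 ≤ 0`. In the case of equality
`p i = q i` on the support of `p`, so `∑ q ≤ 1 = ∑ p` gives `q i = 0` elsewhere. -/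
def S_A1 : Prop := ∀ {ι : Type} [Fintype ι] (p q : ι → ℝ), Pmf p → (∀ i, 0 ≤ q i) →
  ∑ i, q i ≤ 1 → (∀ i, p i ≠ 0 → q i ≠ 0) →
  ent p ≤ ∑ i, p i * -Real.log (q i) ∧
    (ent p = ∑ i, p i * -Real.log (q i) → ∀ i, p i = q i)

/-- **A2 (size of the support).** Gibbs with `q = 1 / |S|` on `S`, `0` elsewhere. -/
def S_A2 : Prop := ∀ {ι : Type} [Fintype ι] (p : ι → ℝ) (S : Finset ι), Pmf p →
  (∀ i, i ∉ S → p i = 0) → ent p ≤ Real.log S.card

/-- **A3 (images).** The image is a probability vector and
`ent p - ent (push f p) = ∑ p i log (push f p (f i) / p i) ≥ 0`. -/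
def S_A3 : Prop := ∀ {ι κ : Type} [Fintype ι] [Fintype κ] (f : ι → κ) (p : ι → ℝ), Pmf p →
  Pmf (push f p) ∧ ent (push f p) ≤ ent p

/-- **A4 (concavity).** `Real.concaveOn_negMulLog` and Jensen. -/
def S_A4 : Prop := ∀ {τ ι : Type} [Fintype ι] (s : Finset τ) (p : τ → ι → ℝ), s.Nonempty →
  (∀ t ∈ s, Pmf (p t)) →
  Pmf (fun i => (∑ t ∈ s, p t i) / s.card) ∧
  (∑ t ∈ s, ent (p t)) / s.card ≤ ent (fun i => (∑ t ∈ s, p t i) / s.card)

/-- **A5 (conditional subadditivity).** (From A1.) Write `P = push a p`,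
`R j = push (fun i => (F j (a i), g j i)) p`, `r j = push (fun i => F j (a i)) p` and
`q i = P (a i) * ∏ j, R j (F j (a i), g j i) / r j (F j (a i))`. If `p i ≠ 0` all factors are
positive. By injectivity
`∑ q i ≤ ∑_x ∑_{b : Fin m → B} P x ∏ j, R j (F j x, b j) / r j (F j x)
= ∑_x P x ∏ j (∑_b R j (F j x, b) / r j (F j x)) ≤ ∑_x P x = 1`
(the inner sums are `1` or `0`: `∑_b R j (y, b) = r j y`; `Finset.prod_univ_sum`,
`Fintype.piFinset`). Gibbs: `ent p ≤ ∑ p i (-log q i) = ent P + ∑ j (ent (R j) - ent (r j))`. -/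
def S_A5 : Prop := ∀ {ι 𝒜 A B : Type} [Fintype ι] [Fintype 𝒜] [Fintype A] [Fintype B] (m : ℕ)
  (p : ι → ℝ) (a : ι → 𝒜) (F : Fin m → 𝒜 → A) (g : Fin m → ι → B), Pmf p →
  Function.Injective (fun i => (a i, fun j => g j i)) →
  ent p ≤ ent (push a p) +
    ∑ j, (ent (push (fun i => (F j (a i), g j i)) p) - ent (push (fun i => F j (a i)) p))

/-! ### B. Uniqueness of the joining -/

open scoped Classical in
/-- frequency of the window `V` in the first `T` positions of `z` -/
noncomputable def frq {α : Type} (z : ℕ → α) {n : ℕ} (V : Fin n → α) (T : ℕ) : ℝ :=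
  (((Finset.range T).filter (fun j => ∀ i : Fin n, z (j + i) = V i)).card : ℝ) / T

open scoped Classical in
/-- probability of the digit block `D` given the base block `V` -/
noncomputable def uu {α : Type} (val : α → ℕ) {B n : ℕ} (V : Fin n → α) (D : Fin n → Fin B) : ℝ :=
  if ∀ i, (D i : ℕ) < val (V i) then (∏ i, (val (V i) : ℝ))⁻¹ else 0

/-- the entropy condition: random digits determine the bases up to small entropy -/
def EntCond {α : Type} [Fintype α] (B : ℕ) (val : α → ℕ) (mu : ∀ n, (Fin n → α) → ℝ) : Prop :=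
  ∀ (l : ℕ) (δ : ℝ), 0 < l → 0 < δ → ∃ m : ℕ, 1 ≤ m ∧
    ent (mu (m * l)) + m * l * (∑ a, mu 1 (fun _ => a) * Real.log (val a)) -
      ent (fun D : Fin (m * l) → Fin B => ∑ V, mu (m * l) V * uu val V D) ≤ δ * m

/-- **B1 (joinings, abstract form).** (From A1, A3, A5.) Put `c = ∑ a, mu 1 a log (val a)`,
`nu n D = ∑ V, mu n V * uu V D`, `q W = mu n W.1 * uu W.1 W.2`. `∑ D, uu V D = 1` as `val ≤ B`
(`D i` ranges over `val (V i)` values), so `∑ q = ∑ mu n = 1`; if `lam n W ≠ 0` then `q W ≠ 0`.
`∑ lam n W * (-log q W) = ent (mu n) + ∑ V, mu n V * ∑ i, log (val (V i)) = ent (mu n) + n c`, the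
last step by the consistency of the windows of length `1`. Hence by Gibbs
`KL n := ent (mu n) + n c - ent (lam n) ≥ 0` with equality only if `lam n = q`. For `l, m ≥ 1` A5 with
`a = Prod.fst`, `F j` = restriction to the `j`-th window of length `l`, `g j` = restriction of the
second component to it gives `ent (lam (m l)) ≤ ent (mu (m l)) + m (ent (lam l) - ent (mu l))`, and
`ent (nu (m l)) ≤ ent (lam (m l))` by A3. So
`m KL l = m (ent (mu l) + l c - ent (lam l)) ≤ ent (mu (m l)) + m l c - ent (nu (m l)) ≤ δ m` for a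
suitable `m`, for every `δ > 0`. So `KL l ≤ 0`, `lam l = q`. (`n = 0` is trivial.) -/
def S_B1 : Prop := ∀ {α : Type} [Fintype α] (B : ℕ) (val : α → ℕ),
  (∀ a, 1 ≤ val a ∧ val a ≤ B) →
  ∀ (mu : ∀ n, (Fin n → α) → ℝ) (lam : ∀ n, (Fin n → α) × (Fin n → Fin B) → ℝ),
  (∀ n, Pmf (lam n)) →
  (∀ (l n i : ℕ) (h : i + l ≤ n) (W : (Fin l → α) × (Fin l → Fin B)),
    push (fun W' : (Fin n → α) × (Fin n → Fin B) =>
      ((fun t : Fin l => W'.1 ⟨i + t, by omega⟩), (fun t : Fin l => W'.2 ⟨i + t, by omega⟩)))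
      (lam n) W = lam l W) →
  (∀ n V, push Prod.fst (lam n) V = mu n V) →
  (∀ n D, push Prod.snd (lam n) D = ∑ V, mu n V * uu val V D) →
  (∀ n W, lam n W ≠ 0 → ∀ i, (W.2 i : ℕ) < val (W.1 i)) →
  EntCond B val mu →
  ∀ n W, lam n W = mu n W.1 * uu val W.1 W.2

/-- **B2 (joinings of sequences).** (From B1.) Use `tendsto_iff_ultrafilter`: let `𝒰 ≤ atTop` be an
ultrafilter. The frequencies lie in `[0, 1]` (compact), so for all `n, W` there is
`lam n W = lim_𝒰 frq (fun j => (z j, x j)) (fun i => (W.1 i, W.2 i))`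
(`isCompact_Icc.ultrafilter_le_nhds`). Check the hypotheses of B1 by limits along `𝒰` (finite sums):
`∑_W frq = 1` for `T ≥ 1`; consistency: the sum over all windows of length `n` extending `W` at
offset `i` is the frequency of `j` with `(z, x)[j + i, j + i + l) = W`, which differs from the
frequency of `W` by at most `i / T`; marginals: sums over one component are the frequencies
of `z` and of `x`; support: a window with positive frequency occurs, so its digits are
smaller than the bases. -/
def S_B2 : Prop := ∀ {α : Type} [Fintype α] (B : ℕ) (val : α → ℕ),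
  (∀ a, 1 ≤ val a ∧ val a ≤ B) →
  ∀ (z : ℕ → α) (x : ℕ → Fin B) (mu : ∀ n, (Fin n → α) → ℝ),
  (∀ n (V : Fin n → α), Tendsto (frq z V) atTop (𝓝 (mu n V))) →
  (∀ j, (x j : ℕ) < val (z j)) →
  (∀ n (D : Fin n → Fin B), Tendsto (frq x D) atTop (𝓝 (∑ V, mu n V * uu val V D))) →
  EntCond B val mu →
  ∀ n (V : Fin n → α) (D : Fin n → Fin B),
    Tendsto (frq (fun j => (z j, x j)) (fun i => (V i, D i))) atTop (𝓝 (mu n V * uu val V D))

/-! ### C. Cantor series

`Q : ℕ → ℕ` is the basic sequence, `Q i` stands for `q_(i+1)`. -/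

/-- `q_1 ⋯ q_n x` modulo `1` -/
noncomputable def orb (Q : ℕ → ℕ) (x : ℝ) (n : ℕ) : ℝ := Int.fract ((∏ i ∈ range n, (Q i : ℝ)) * x)

/-- the digit `x_(n+1)` of the Cantor series of `x` -/
noncomputable def dig (Q : ℕ → ℕ) (x : ℝ) (n : ℕ) : ℕ := ⌊(Q n : ℝ) * orb Q x n⌋₊

open scoped Classical in
/-- `Q_n(D)` -/
noncomputable def QD (Q : ℕ → ℕ) {l : ℕ} (D : Fin l → ℕ) (n : ℕ) : ℝ :=
  ∑ j ∈ range n, if ∀ i : Fin l, D i < Q (j + i) then (∏ i : Fin l, (Q (j + i) : ℝ))⁻¹ else 0

open scoped Classical in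
/-- `N_n(D, x)` -/
noncomputable def ND (Q : ℕ → ℕ) {l : ℕ} (D : Fin l → ℕ) (x : ℝ) (n : ℕ) : ℝ :=
  (((range n).filter (fun j => ∀ i : Fin l, dig Q x (j + i) = D i)).card : ℝ)

/-- `𝒩(Q)` -/
def Normal (Q : ℕ → ℕ) : Set ℝ := {x | 0 ≤ x ∧ x < 1 ∧ ∀ (l : ℕ) (D : Fin l → ℕ),
  Tendsto (QD Q D) atTop atTop → Tendsto (fun n => ND Q D x n / QD Q D n) atTop (𝓝 1)}

open scoped Classical in
/-- `Q_n(D, B)` -/
noncomputable def QDB (Q : ℕ → ℕ) {l : ℕ} (D B : Fin l → ℕ) (n : ℕ) : ℝ :=
  ∑ j ∈ range n, if (∀ i : Fin l, Q (j + i) = B i) ∧ (∀ i : Fin l, D i < Q (j + i))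
    then (∏ i : Fin l, (B i : ℝ))⁻¹ else 0

open scoped Classical in
/-- `N_n(D, B, x)` -/
noncomputable def NDB (Q : ℕ → ℕ) {l : ℕ} (D B : Fin l → ℕ) (x : ℝ) (n : ℕ) : ℝ :=
  (((range n).filter (fun j => (∀ i : Fin l, Q (j + i) = B i) ∧
    ∀ i : Fin l, dig Q x (j + i) = D i)).card : ℝ)

/-- `𝒰𝒩(Q)` -/
def UNormal (Q : ℕ → ℕ) : Set ℝ := {x | 0 ≤ x ∧ x < 1 ∧ ∀ (l : ℕ) (D B : Fin l → ℕ),
  Tendsto (QDB Q D B) atTop atTop → Tendsto (fun n => NDB Q D B x n / QDB Q D B n) atTop (𝓝 1)}

open scoped Classical in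
/-- `𝒟𝒩(Q)`: `(q_1 ⋯ q_n x mod 1)_{n ≥ 1}` is uniformly distributed -/
def DNormal (Q : ℕ → ℕ) : Set ℝ := {x | 0 ≤ x ∧ x < 1 ∧ ∀ a b : ℝ, 0 ≤ a → a ≤ b → b ≤ 1 →
  Tendsto (fun N : ℕ => (((range N).filter (fun n => a ≤ orb Q x (n + 1) ∧
    orb Q x (n + 1) < b)).card : ℝ) / N) atTop (𝓝 (b - a))}

/-- `z` codes the basic sequence, `mu` are its window frequencies -/
structure Gen {α : Type} [Fintype α] (B : ℕ) (val : α → ℕ) (z : ℕ → α)
    (mu : ∀ n, (Fin n → α) → ℝ) : Prop where
  inj : Function.Injective val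
  two : ∀ a, 2 ≤ val a
  leB : ∀ a, val a ≤ B
  lim : ∀ n (V : Fin n → α), Tendsto (frq z V) atTop (𝓝 (mu n V))
  pos : ∀ n (V : Fin n → α), (∃ j, ∀ i : Fin n, z (j + i) = V i) → 0 < mu n V

/-- **C0 (digits).** `orb (n+1) = fract (Q n * orb n)` (the product splits and
`Q n * ⌊..⌋` is an integer), so `orb n = dig n / Q n + orb (n+1) / Q n`; induction on `l`. -/
def S_C0 : Prop := ∀ (Q : ℕ → ℕ), (∀ n, 2 ≤ Q n) → ∀ x : ℝ, 0 ≤ x → x < 1 →
  (∀ n, dig Q x n < Q n) ∧ (∀ n, 0 ≤ orb Q x n ∧ orb Q x n < 1) ∧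
  (∀ n l, orb Q x n = ∑ i ∈ range l, (dig Q x (n + i) : ℝ) / (∏ k ∈ range (i + 1), (Q (n + k) : ℝ)) +
    orb Q x (n + l) / ∏ k ∈ range l, (Q (n + k) : ℝ))

/-- **C1 (normal numbers have the averaged digit frequencies).** (From C0.) For `D : Fin n → Fin B`:
`QD Q D T / T = ∑ V, frq z V T * uu val V D → nu := ∑ V, mu n V * uu val V D`. If `nu > 0` then
`QD → ∞`, so `ND / QD → 1` and `frq ds D T = ND / T → nu`. If `nu = 0` every window `V` with
`mu n V > 0` has `uu val V D = 0`; by `pos` every window occurring in `z` is of this kind, so, the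
digits being smaller than the bases, `D` does not occur and the frequency is `0`. -/
def S_C1 : Prop := ∀ {α : Type} [Fintype α] (B : ℕ) (val : α → ℕ) (z : ℕ → α)
  (mu : ∀ n, (Fin n → α) → ℝ), Gen B val z mu → ∀ x ∈ Normal (fun j => val (z j)),
  ∃ ds : ℕ → Fin B, (∀ j, (ds j : ℕ) = dig (fun j => val (z j)) x j) ∧
    (∀ j, (ds j : ℕ) < val (z j)) ∧
    ∀ n (D : Fin n → Fin B), Tendsto (frq ds D) atTop (𝓝 (∑ V, mu n V * uu val V D))

/-- **C2 (canonical joint frequencies give uniform normality).** If `QDB Q D B → ∞`, infinitely many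
terms are nonzero, so `B i = val (V i)` for a window `V` occurring in `z` (unique, `val` is
injective) and `D i < B i ≤ B`; `QDB / T = frq z V T * (∏ B i)⁻¹ → mu n V * uu V D > 0` and
`NDB / T` is the joint frequency. Divide. -/
def S_C2 : Prop := ∀ {α : Type} [Fintype α] (B : ℕ) (val : α → ℕ) (z : ℕ → α)
  (mu : ∀ n, (Fin n → α) → ℝ), Gen B val z mu → ∀ x : ℝ, 0 ≤ x → x < 1 →
  ∀ ds : ℕ → Fin B, (∀ j, (ds j : ℕ) = dig (fun j => val (z j)) x j) →
  (∀ n (V : Fin n → α) (D : Fin n → Fin B),
    Tendsto (frq (fun j => (z j, ds j)) (fun i => (V i, D i))) atTop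
      (𝓝 (mu n V * uu val V D))) → x ∈ UNormal (fun j => val (z j))

/-- **C3 (canonical joint frequencies give distribution normality).** (From C0.) It suffices to show
for `t ∈ [0, 1]` that the frequency of `{n : orb n < t}` tends to `t` (then shift by one, and
subtract). Fix `l`. Let `V, D` be the windows of length `l` at `n`, `P = ∏ val (V i)`,
`s = ∑ i, D i / ∏_{k ≤ i} val (V k)`; by C0 `orb n ∈ [s, s + 1/P)`. For fixed `V` the map
`D ↦ s P` is a bijection from `{D < V}` onto `{0, …, P - 1}` (mixed radix; only needed: injective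
with integer values in `[0, P)`), so the number of `D < V` with `s < t` is at most `t P + 1`, and
the number with `s + 1/P ≤ t` at least `t P - 1`. Hence
`limsup ≤ ∑ V, mu l V (t + 1/P) ≤ t + 2^(-l)`, `liminf ≥ t - 2^(-l)` (`∑ V, mu l V = 1`,
`mu ≥ 0`, `P ≥ 2^l`). -/
def S_C3 : Prop := ∀ {α : Type} [Fintype α] (B : ℕ) (val : α → ℕ) (z : ℕ → α)
  (mu : ∀ n, (Fin n → α) → ℝ), Gen B val z mu → ∀ x : ℝ, 0 ≤ x → x < 1 →
  ∀ ds : ℕ → Fin B, (∀ j, (ds j : ℕ) = dig (fun j => val (z j)) x j) →
  (∀ n (V : Fin n → α) (D : Fin n → Fin B),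
    Tendsto (frq (fun j => (z j, ds j)) (fun i => (V i, D i))) atTop
      (𝓝 (mu n V * uu val V D))) → x ∈ DNormal (fun j => val (z j))

/-! ### D. The product code -/

/-- number of subblocks at level `k` -/
def rad (k : ℕ) : ℕ := 2 ^ (k + 2)

/-- length of a block of level `k` (in bits) -/
def len : ℕ → ℕ
  | 0 => 1
  | (k + 1) => rad k * len k

/-- infinite codewords: for every aligned block of level `k + 1` the sum of its `rad k` subblocks of
level `k` vanishes -/
def Cinf : Set (ℕ → ZMod 2) := {w | ∀ k a r, r < len k →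
  ∑ j ∈ range (rad k), w (a * len (k + 1) + j * len k + r) = 0}

/-- the same constraints inside `[0, len k)` -/
def IsC (k : ℕ) (u : ℕ → ZMod 2) : Prop := ∀ m < k, ∀ a r, (a + 1) * len (m + 1) ≤ len k →
  r < len m → ∑ j ∈ range (rad m), u (a * len (m + 1) + j * len m + r) = 0

/-- extension by `0` -/
def ext (k : ℕ) (v : Fin (len k) → ZMod 2) : ℕ → ZMod 2 :=
  fun n => if h : n < len k then v ⟨n, h⟩ else 0

open scoped Classical in
/-- codewords of level `k` -/
noncomputable def C (k : ℕ) : Finset (Fin (len k) → ZMod 2) := univ.filter (fun v => IsC k (ext k v))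

/-- the `t`-th aligned block of level `k` of `w` -/
def blk (k : ℕ) (w : ℕ → ZMod 2) (t : ℕ) : Fin (len k) → ZMod 2 := fun r => w (t * len k + r)

/-- the letters: bit `0` is written `0 1`, bit `1` is written `1 0` -/
def man (w : ℕ → ZMod 2) (n : ℕ) : ZMod 2 := w (n / 2) + (n : ZMod 2)

/-- the base of a letter -/
def val (c : ZMod 2) : ℕ := if c = 1 then 16 else 2

/-- **D0 (structure).** `len (m + 1)` divides `len k` for `m < k`, so an aligned block of level
`m + 1 ≤ k` inside `[0, len (k + 1))` lies in exactly one of the `rad k` subblocks of level `k`;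
for `m = k` only `a = 0` is possible. The second part: `ext k (blk k w t)` agrees with
`w (t * len k + ·)` on `[0, len k)` and `t * len k` is a multiple of `len (m + 1)`. -/
def S_D0 : Prop :=
  (∀ k (u : ℕ → ZMod 2), IsC (k + 1) u ↔
    (∀ j < rad k, IsC k (fun r => u (j * len k + r))) ∧
      ∀ r < len k, ∑ j ∈ range (rad k), u (j * len k + r) = 0) ∧
  (∀ k (u u' : ℕ → ZMod 2), (∀ n < len k, u n = u' n) → IsC k u → IsC k u') ∧
  (∀ w ∈ Cinf, ∀ k t, IsC k (fun r => w (t * len k + r)) ∧ blk k w t ∈ C k)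

/-- **D1 (number of codewords).** (From D0.) `C 0` is everything: `2` words. A word of `C (k + 1)` is
a family of `rad k` words of `C k` with sum `0`: the first `rad k - 1` are arbitrary and the last one
is their sum (`C k` is closed under sums). So `|C (k+1)| = |C k|^(rad k - 1)`, and
`a k = log |C k| / (2 len k)` satisfies `a (k + 1) = (1 - 1 / rad k) a k`, `a 0 = log 2 / 2`: it
decreases and `a k ≥ a 0 (1 - ∑_{j<k} 2^(-j-2)) ≥ a 0 / 2`. -/
def S_D1 : Prop := (∀ k, 0 < (C k).card) ∧
  ∃ h : ℝ, 0 < h ∧ Tendsto (fun k => Real.log (C k).card / (2 * len k)) atTop (𝓝 h)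

/-- a pair of digits both `< 2` reveals nothing -/
def er (x : ℕ → ℕ) (i : ℕ) : Prop := x (2 * i) < 2 ∧ x (2 * i + 1) < 2

/-- positions which the iterated parity check decoder of level `k` does not recover from the erasure
pattern `e` -/
def und : ℕ → (ℕ → Prop) → ℕ → Prop
  | 0, e, r => e r
  | (k + 1), e, p => und k (fun i => e (p / len k * len k + i)) (p % len k) ∧
      ∃ a < rad k, a ≠ p / len k ∧ und k (fun i => e (a * len k + i)) (p % len k)

/-- **D2 (decoding).** (From D0.) Induction on `k`. Level `0`: if `x 0 ≥ 2` then `val (man v 0) = 16`,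
i.e. `v 0 = 1`, and if `x 1 ≥ 2` then `v 0 = 0`; the same for `v'`. Level `k + 1`, position
`p = a * len k + r`: if `r` is recovered in subblock `a`, use the induction hypothesis for the
subblocks `a` of `v, v', x` (`man` of a shift by `a * len k` bits is the shift by `2 a len k` of
`man`); otherwise `r` is recovered in all other subblocks, where `v = v'` at `r`, and the two parity
checks at `r` give equality in subblock `a`. -/
def S_D2 : Prop := ∀ (k : ℕ) (x : ℕ → ℕ) (v v' : ℕ → ZMod 2), IsC k v → IsC k v' →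
  (∀ i < 2 * len k, x i < val (man v i)) → (∀ i < 2 * len k, x i < val (man v' i)) →
  ∀ r < len k, ¬ und k (er x) r → v r = v' r

/-- extension of a digit block by `0` -/
def exd (k : ℕ) (x : Fin (2 * len k) → Fin 16) : ℕ → Fin 16 :=
  fun n => if h : n < 2 * len k then x ⟨n, h⟩ else 0

open scoped Classical in
/-- **D3 (erasure probability).** For every bit sequence `v` (no parity check needed) the number of
digit blocks compatible with `v` is `32 ^ len k` (each pair of letters has bases `2, 16`), and the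
proportion of those for which position `r` is not recovered is at most `2^(-k-3)`. Induction on `k`.
Level `0`: the digit at the letter with base `2` is always `< 2`, the other one is `< 2` in `2` of
`16` cases: `4` of `32`. Level `k + 1`: the digit blocks are families of `rad k` independent digit
blocks; position `(a, r)` is unrecovered only if for some `b ≠ a` position `r` is unrecovered in
subblock `a` and in subblock `b`: proportion at most
`rad k * (2^(-k-3))^2 = 2^(k+2) 2^(-2k-6) = 2^(-k-4)`. (Either by counting, splitting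
`Fin (2 * len (k+1))` into the windows, or with the product measure and independence of
disjoint sets of coordinates.) -/
def S_D3 : Prop := ∀ (k : ℕ) (v : ℕ → ZMod 2),
  ((univ.filter (fun x : Fin (2 * len k) → Fin 16 =>
      ∀ i, (x i : ℕ) < val (man v i))).card = 32 ^ len k) ∧
  ∀ r < len k, ((univ.filter (fun x : Fin (2 * len k) → Fin 16 =>
      (∀ i, (x i : ℕ) < val (man v i)) ∧ und k (er (fun n => (exd k x n : ℕ))) r)).card) *
        2 ^ (k + 3) ≤ 32 ^ len k

open scoped Classical in
/-- codewords of level `k` with compatible digits -/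
noncomputable def JX (k : ℕ) : Finset ((Fin (len k) → ZMod 2) × (Fin (2 * len k) → Fin 16)) :=
  univ.filter (fun j => j.1 ∈ C k ∧ ∀ i, (j.2 i : ℕ) < val (man (ext k j.1) i))

/-- **D4 (entropy of the digits).** (From A1-A3, D1, D2, D3.) `|JX k| = |C k| 32 ^ len k =: J`. For a
digit block `x` let `m x` be the number of compatible codewords; two of them agree on all recovered
positions (D2 applied to `ext k v`, `ext k v'`), so `m x ≤ 2 ^ (number of unrecovered positions)`.
The law of `x` is `p x = m x / J` and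
`ent p = ∑ p x (log J - log (m x)) ≥ log J - log 2 * ∑ p x #und x`
`= log J - log 2 * (1 / J) * ∑_{(v, x) ∈ JX} #und x ≥ log J - log 2 * len k / 2^(k+3)` by D3. -/
def S_D4 : Prop := ∀ k : ℕ, (JX k).card = (C k).card * 32 ^ len k ∧
  Real.log (C k).card + len k * Real.log 32 - len k / 2 ^ (k + 3) * Real.log 2 ≤
    ent (law (JX k) (fun j => j.2))

/-! ### E. Lower bounds for the entropies -/

/-- **E1 (windows).** (From A2-A5.) Let `y` be uniformly distributed in `S`. For every offset
`φ < n` the windows of length `n` at `φ, φ + n, …` inside `[0, M)` together with the windows at `0`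
and at `M - n` cover `[0, M)`, so by subadditivity (A5 with `𝒜 = A = Unit`) and A2
`ent (full) ≤ ∑_{windows} ent (law of the window) + 2 n log |β|`. Sum over `φ < n`: every window
position `p ≤ M - n` occurs once. Then concavity A4. -/
def S_E1 : Prop := ∀ {J β : Type} [Fintype β] (S : Finset J) (y : J → ℕ → β) (M n : ℕ),
  S.Nonempty → 0 < n → n ≤ M →
  n * ent (law S (fun j => fun i : Fin M => y j i)) ≤
    ((M - n + 1 : ℕ) : ℝ) * ent (fun D : Fin n → β =>
      (∑ p ∈ range (M - n + 1), law S (fun j => fun i : Fin n => y j (p + i)) D) /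
        ((M - n + 1 : ℕ) : ℝ)) + 2 * n ^ 2 * Real.log (Fintype.card β)

/-- average law of the windows of letters in a random codeword of level `k` -/
noncomputable def avq (k n : ℕ) (V : Fin n → ZMod 2) : ℝ :=
  (∑ p ∈ range (2 * len k - n + 1), law (C k) (fun v => fun i : Fin n => man (ext k v) (p + i)) V) /
    ((2 * len k - n + 1 : ℕ) : ℝ)

/-- average law of the windows of digits -/
noncomputable def avx (k n : ℕ) (D : Fin n → Fin 16) : ℝ :=
  (∑ p ∈ range (2 * len k - n + 1), law (JX k) (fun j => fun i : Fin n => exd k j.2 (p + i)) D) /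
    ((2 * len k - n + 1 : ℕ) : ℝ)

/-- **E2.** (From D3 (first part), D4 (card).) For fixed `v` and a window `[p, p + n)` with letters
`V` the number of compatible digit blocks with window `D` is `0` unless `D < V`, and otherwise the
product of the bases outside of the window, `32 ^ len k / ∏ val (V i)`, i.e. it is
`32 ^ len k * uu val V D`. Sum over `v ∈ C k`. -/
def S_E2 : Prop := ∀ (k n : ℕ), n ≤ 2 * len k → ∀ D : Fin n → Fin 16,
  avx k n D = ∑ V, avq k n V * uu val V D

/-- **E3 (lower bounds).** (From D1, D4, E1, E2.) Put `M = 2 len k → ∞`. E1 for the letters of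
the codewords of `C k` (the full law is uniform on `|C k|` values: `v ↦ man (ext k v)` is injective,
entropy `log |C k|`) gives `n log |C k| ≤ (M - n + 1) ent (avq k n) + 2 n² log 2`; divide by `M` and
let `k → ∞` (`ent` is continuous). In the same way for the digits with D4, `avx` and E2; the full
entropy divided by `M` tends to `h + (log 32) / 2`. -/
def S_E3 : Prop := ∀ (h : ℝ) (mu : ∀ n, (Fin n → ZMod 2) → ℝ),
  Tendsto (fun k => Real.log (C k).card / (2 * len k)) atTop (𝓝 h) →
  (∀ n V, Tendsto (fun k => avq k n V) atTop (𝓝 (mu n V))) →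
  ∀ n : ℕ, n * h ≤ ent (mu n) ∧
    n * (h + 5 / 2 * Real.log 2) ≤ ent (fun D : Fin n → Fin 16 => ∑ V, mu n V * uu val V D)

/-! ### F. Equidistributed codewords -/

/-- every block of every level is equidistributed -/
def EQ (w : ℕ → ZMod 2) : Prop := ∀ (k : ℕ), ∀ v ∈ C k,
  Tendsto (fun T => frq (fun t => blk k w t) (fun _ : Fin 1 => v) T) atTop (𝓝 (1 / (C k).card))

/-- **F1 (extension).** (From D0.) Let `dg m n = n / len m % rad m` be the mixed radix digits. Let
`m₀ ≥ k` be a level where the digits of `t * len k` and `t' * len k` differ (exists as `t ≠ t'`;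
for all large levels both digits vanish). Choose for all `m ≥ k` digits `b m < rad m`,
`b m ≠ a m := dg m (t * len k)` with `b m₀` also different from the digit of `t' * len k` (possible,
`rad m ≥ 4`). Let `w n = v (n % len k)` if `dg m n ∈ {a m, b m}` for all `m ≥ k`, and `w n = 0`
otherwise. The parity checks of level `m < k` hold as `v` is a codeword (or `w = 0` there), those of
level `m ≥ k` because exactly two of the summands are nonzero, and they are equal (or all vanish).
The block `t` is `v` and the block `t'` is `0`. For the last part add two such words (`Cinf` is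
closed under addition). -/
def S_F1 : Prop := ∀ (k t t' : ℕ), t ≠ t' → ∀ v ∈ C k, ∀ v' ∈ C k,
  ∃ w ∈ Cinf, blk k w t = v ∧ blk k w t' = v'

/-- **F2 (random codeword).** (From F1.) `Cinf` is a closed subgroup of the compact group
`ℕ → ZMod 2`; take its Haar probability measure. The events `{blk k w t = v, blk k w t' = v'}`,
`v, v' ∈ C k`, are translates of each other by F1, hence have the same probability; they form
a partition (D0: all blocks are in `C k`). -/
def S_F2 : Prop := ∃ (Ω : Type) (_ : MeasurableSpace Ω) (P : Measure Ω) (W : Ω → ℕ → ZMod 2),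
  IsProbabilityMeasure P ∧ (∀ ω, W ω ∈ Cinf) ∧ (∀ n c, MeasurableSet {ω | W ω n = c}) ∧
  ∀ (k t t' : ℕ), t ≠ t' → ∀ v ∈ C k, ∀ v' ∈ C k,
    P.real {ω | blk k (W ω) t = v} = 1 / (C k).card ∧
    P.real {ω | blk k (W ω) t = v ∧ blk k (W ω) t' = v'} = 1 / (C k).card * (1 / (C k).card)

/-- **F3.** (From F2.) `ProbabilityTheory.strong_law_ae_real` for the indicators of the pairwise
independent events `{blk k (W ω) t = v}`, `t = 0, 1, …`, of the same probability; countably many
`k, v`. -/
def S_F3 : Prop := ∃ w ∈ Cinf, EQ w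

/-! ### G. Window frequencies -/

/-- **G1.** (From D0.) Let `M = 2 len k ≥ n`. A position `j = t M + p`, `p < M`. If `p ≤ M - n` then
the window at `j` lies in the block `t` and is the window of `man (ext k (blk k w t))` at `p`. So
`frq (man w) V T` differs from
`(1/M) ∑_{v ∈ C k} (frequency of v among the first T/M blocks) #{p ≤ M - n : window at p is V}` by at
most `n / M + 2 M / T`, and by `EQ` this tends to `(M - n + 1) / M * avq k n V`. Hence
`limsup |frq (man w) V T - avq k n V| ≤ (2 n + 2) / M`, for every `k`; so the frequencies form a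
Cauchy sequence and the limit is the limit of `avq k n V`. A shift by `s` changes
`frq` by at most `s / T`. -/
def S_G1 : Prop := ∀ w ∈ Cinf, EQ w → ∃ mu : ∀ n, (Fin n → ZMod 2) → ℝ,
  ∀ n V, (∀ s, Tendsto (frq (fun j => man w (j + s)) V) atTop (𝓝 (mu n V))) ∧
    Tendsto (fun k => avq k n V) atTop (𝓝 (mu n V))

/-- **G2.** (From D0.) If `V` occurs in `man w` at `j`, take `k` with `j + n ≤ 2 len k`: it occurs in
the block `0` of level `k`, hence in every aligned block equal to it, and these have positive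
frequency `1 / |C k|`. -/
def S_G2 : Prop := ∀ w ∈ Cinf, EQ w → ∀ mu : ∀ n, (Fin n → ZMod 2) → ℝ,
  (∀ n V, Tendsto (frq (man w) V) atTop (𝓝 (mu n V))) →
  ∀ n (V : Fin n → ZMod 2), (∃ j, ∀ i : Fin n, man w (j + i) = V i) → 0 < mu n V

/-- **G3 (upper bound).** (From A2, D0.) `M = 2 len k`. A window of length `n` at
`j = t M + φ`, `φ < M`, is determined by `φ` and the `n / M + 2` blocks `t, t + 1, …` of level `k`,
which are in `C k`. So at most `M |C k| ^ (n / M + 2)` windows occur, and `mu n` vanishes at the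
others; A2. The last part: exactly one of the letters `2i`, `2i + 1` of `man w` is `1`. -/
def S_G3 : Prop := ∀ w ∈ Cinf, ∀ mu : ∀ n, (Fin n → ZMod 2) → ℝ,
  (∀ n V, Tendsto (frq (man w) V) atTop (𝓝 (mu n V))) →
  (∀ n k : ℕ, ent (mu n) ≤ Real.log (2 * len k) +
    ((n : ℝ) / (2 * len k) + 2) * Real.log (C k).card) ∧
  mu 1 (fun _ => 1) = 1 / 2 ∧ mu 1 (fun _ => 0) = 1 / 2

/-! ### H. Dynamical generation -/

/-- entropy of the finite partition given by `ξ` -/
noncomputable def partEnt {X ι : Type} [MeasurableSpace X] [Fintype ι] (μ : Measure X)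
    (ξ : X → ι) : ℝ := ∑ i, Real.negMulLog (μ.real (ξ ⁻¹' {i}))

/-- Kolmogorov-Sinai entropy -/
noncomputable def ksEnt {X : Type} [MeasurableSpace X] (μ : Measure X) (T : X → X) : EReal :=
  ⨆ (k : ℕ) (ξ : X → Fin k) (_ : Measurable ξ),
    limsup (fun n : ℕ => ((partEnt μ (fun y => fun j : Fin n => ξ (T^[j] y)) / n : ℝ) : EReal)) atTop

/-- `Q` (`Q i` stands for `q_(i+1)`) is dynamically generated and non-deterministic -/
def NonDet (Q : ℕ → ℕ) : Prop :=
  ∃ (X : Type) (tX : TopologicalSpace X) (_ : PolishSpace X) (_ : MeasurableSpace X)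
    (_ : BorelSpace X) (μ : Measure X) (T : X → X) (f : X → ℕ) (x₀ : X),
    IsProbabilityMeasure μ ∧ (∀ U : Set X, IsOpen U → U.Nonempty → 0 < μ U) ∧
    Continuous T ∧ MeasurePreserving T μ μ ∧ Continuous f ∧ (∀ y, 2 ≤ f y) ∧
    tX = TopologicalSpace.generateFrom {s | ∃ n m : ℕ, s = {y | f (T^[n] y) = m}} ∧
    (∀ F : X → ℝ, Continuous F → Integrable F μ →
      Tendsto (fun N : ℕ => (∑ n ∈ range N, F (T^[n + 1] x₀)) / N) atTop (𝓝 (∫ y, F y ∂μ))) ∧
    (∀ i, Q i = f (T^[i + 1] x₀)) ∧ 0 < ksEnt μ T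

/-- **H1 (the invariant measure).** For a continuous `F` on the compact space `ℕ → α` the averages
`(1/N) ∑_{j<N} F (z (j + ·))` converge: for a function of finitely many coordinates by the
hypothesis, in general by uniform approximation (a continuous function is a uniform limit
of locally constant functions of finitely many coordinates). The limit is a positive linear
functional with value `1` at `1`; Riesz-Markov-Kakutani (`RealRMK`) gives `μ`. Cylinders are
clopen, their indicators continuous. Invariance: the limits of `F` and of `F ∘ shift` agree, and a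
finite measure is determined by the integrals of continuous functions (or by the cylinders). -/
def S_H1 : Prop := ∀ {α : Type} [Fintype α] [TopologicalSpace α] [DiscreteTopology α]
  [MeasurableSpace α] [BorelSpace α] (z : ℕ → α) (mu : ∀ n, (Fin n → α) → ℝ),
  (∀ n (V : Fin n → α), Tendsto (frq z V) atTop (𝓝 (mu n V))) →
  ∃ μ : Measure (ℕ → α), IsProbabilityMeasure μ ∧
    (∀ n (V : Fin n → α), μ.real {y | ∀ i : Fin n, y i = V i} = mu n V) ∧
    MeasurePreserving (fun (y : ℕ → α) (i : ℕ) => y (i + 1)) μ μ ∧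
    ∀ F : (ℕ → α) → ℝ, Continuous F →
      Tendsto (fun N : ℕ => (∑ j ∈ range N, F (fun i => z (j + i))) / N) atTop (𝓝 (∫ y, F y ∂μ))

/-- **H2.** (From H1.) Give `α` the discrete topology and `⊤`. `X = {y : ℕ → α | ∀ n,
0 < mu n (fun i : Fin n => y i)}` is closed, of full measure (its complement is a countable union of
null cylinders) and shift invariant (`mu n (y 1, …, y n) ≥ mu (n+1) (y 0, …, y n)` by invariance of
`μ`), and it contains `z` by `pos`. Put the restriction of `μ` on `X` (`Measure.comap Subtype.val`),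
`T` the shift, `f y = val (y 0)`, `x₀ = z`. Open sets: a nonempty open set of `X` contains
`X ∩ cylinder (y 0, …, y (n-1))` with `y ∈ X`, of measure `mu n _ > 0`. The topology: `val` is
injective, so the sets `{y | f (T^[n] y) = m}` are the sets `{y | y n = a}` or empty, which generate
the topology. Generic point: extend a continuous function on the compact set `X` to `ℕ → α` (Tietze)
and use H1; the shift of the index by one is harmless. Entropy: with
`ξ y = (index of y 0) : Fin |α|`, `partEnt μ (ξ ∘ T^[·])` for `n` coordinates is `ent (mu n) ≥ c n`,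
so the limsup is `≥ c > 0`. -/
def S_H2 : Prop := ∀ {α : Type} [Fintype α] (val : α → ℕ) (z : ℕ → α)
  (mu : ∀ n, (Fin n → α) → ℝ) (c : ℝ), Function.Injective val → (∀ a, 2 ≤ val a) →
  (∀ n (V : Fin n → α), Tendsto (frq z V) atTop (𝓝 (mu n V))) →
  (∀ n (V : Fin n → α), (∃ j, ∀ i : Fin n, z (j + i) = V i) → 0 < mu n V) →
  0 < c → (∀ n : ℕ, c * n ≤ ent (mu n)) → NonDet (fun i => val (z (i + 1)))

end Pool.Agent.Q62.CS
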